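import Pool.Statements.S00471
import Pool.Agent.R841.K3All
import Pool.Agent.R841.TreeGlue

set_option autoImplicit false
set_option linter.unusedSectionVars false
open Pool Pool.MP_d5c549_ag

/-!
The proof. Write `G = Z2 x Z2` and, for the three nontrivial characters `c` of `G` and a multiset of
`d` elements of `G` (a row), `y c` for the number of its elements with `c = 1`. Rows are the
integral triples of even sum in the tetrahedron `d * conv {000, 110, 101, 011}`. At an inner vertex,
for each `c` the numbers `y c` on the edges around it have even sum and satisfy the inequalities of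
the parity polytope. Conversely such data are sums of `d` networks: for claws with more than two
leaves, the set of the possible rows on a new inner edge that splits off two leaves is the set of the
points of the right parities of the intersection of a box with the tetrahedron, and it is nonempty
(`Pool.Agent.R841.K3.split`). This reduces to the three-leaf claw (`Pool.Agent.R841.K3.claw3`), a
finite case analysis. The decompositions at the vertices are glued along the tree.
-/

namespace Pool.Agent.S00471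

open Pool.Agent.R841.K3 Pool.Agent.R841.TG

section

variable {W : Type} [Fintype W] [DecidableEq W] (T : SimpleGraph W) [DecidableRel T.Adj]

/-- the neighbours -/
def nb (v : W) : Finset W := Finset.univ.filter fun w => T.Adj v w

/-- the value in column `c` -/
def Y (c : Fin 3) (z : (W × W × (ZMod 2 × ZMod 2) → ℤ) × ℤ) (v w : W) : ℤ :=
  ∑ h : ZMod 2 × ZMod 2, (lamN c h : ℤ) * z.1 (v, w, h)

/-- `g` is a network -/
def IsNet (g : W → W → ZMod 2 × ZMod 2) : Prop :=
  (∀ v w : W, g v w = g w v) ∧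
    (∀ v : W, (¬ ∃! w : W, T.Adj v w) →
      (∑ w : W, (if T.Adj v w then g v w else (0 : ZMod 2 × ZMod 2))) = 0)

/-- the vector of a network -/
def vec (g : W → W → ZMod 2 × ZMod 2) : (W × W × (ZMod 2 × ZMod 2) → ℤ) × ℤ :=
  Prod.mk (fun x : W × W × (ZMod 2 × ZMod 2) =>
    if T.Adj x.1 x.2.1 ∧ g x.1 x.2.1 = x.2.2 then (1 : ℤ) else 0) (1 : ℤ)

/-- linear equations -/
def PE (z : (W × W × (ZMod 2 × ZMod 2) → ℤ) × ℤ) : Prop :=
  (∀ v w h, ¬ T.Adj v w → z.1 (v, w, h) = 0) ∧
  (∀ v w, T.Adj v w → ∑ h : ZMod 2 × ZMod 2, z.1 (v, w, h) = z.2) ∧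
  (∀ v w h, z.1 (v, w, h) = z.1 (w, v, h)) ∧
  (∀ v, (¬ ∃! w : W, T.Adj v w) → ∀ c, Even (∑ w ∈ nb T v, Y c z v w))

/-- linear inequalities -/
def PI (z : (W × W × (ZMod 2 × ZMod 2) → ℤ) × ℤ) : Prop :=
  0 ≤ z.2 ∧ (∀ x, 0 ≤ z.1 x) ∧
  (∀ v, (¬ ∃! w : W, T.Adj v w) → ∀ c, ∀ A ⊆ nb T v, Odd A.card →
    z.2 ≤ V (nb T v) A z.2 (Y c z v))

variable {T}

theorem lamN_le : ∀ (c : Fin 3) (h : ZMod 2 × ZMod 2), lamN c h ≤ 1 := by decide

theorem Y_vec (c : Fin 3) (g : W → W → ZMod 2 × ZMod 2) {v w : W} (h : T.Adj v w) :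
    Y c (vec T g) v w = lamN c (g v w) := by
  unfold Y vec
  simp [h]

theorem even_net {g : W → W → ZMod 2 × ZMod 2} (hg : IsNet T g) {v : W}
    (hv : ¬ ∃! w : W, T.Adj v w) (c : Fin 3) : Even (∑ w ∈ nb T v, lamN c (g v w)) := by
  have h1 := hg.2 v hv
  rw [← Finset.sum_filter] at h1
  change ∑ w ∈ nb T v, g v w = 0 at h1
  have hadd : ∀ a b : ZMod 2 × ZMod 2, lam c (a + b) = lam c a + lam c b := by
    revert c; decide
  have h0 : lam c 0 = 0 := by revert c; decide
  have h2 : lam c (∑ w ∈ nb T v, g v w) = ∑ w ∈ nb T v, lam c (g v w) :=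
    map_sum (AddMonoidHom.mk' (lam c) hadd) _ _
  rw [h1, h0] at h2
  have h3 : ((∑ w ∈ nb T v, lamN c (g v w) : ℕ) : ZMod 2) = 0 := by
    rw [h2]
    push_cast
    refine Finset.sum_congr rfl fun w _ => ?_
    unfold lamN
    exact ZMod.natCast_zmod_val _
  exact (ZMod.natCast_eq_zero_iff_even).1 h3

theorem PE_vec {g : W → W → ZMod 2 × ZMod 2} (hg : IsNet T g) : PE T (vec T g) := by
  refine ⟨fun v w h hvw => by simp [vec, hvw], fun v w hvw => by simp [vec, hvw],
    fun v w h => ?_, fun v hv c => ?_⟩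
  · simp only [vec, hg.1 v w, T.adj_comm v w]
  · have e : ∑ w ∈ nb T v, Y c (vec T g) v w = ∑ w ∈ nb T v, (lamN c (g v w) : ℤ) :=
      Finset.sum_congr rfl fun w hw => Y_vec c g (Finset.mem_filter.1 hw).2
    rw [e]
    have := even_net hg hv c
    exact_mod_cast this

theorem PI_vec {g : W → W → ZMod 2 × ZMod 2} (hg : IsNet T g) : PI T (vec T g) := by
  refine ⟨by simp [vec], fun x => ?_, fun v hv c A hA hodd => ?_⟩
  · simp only [vec]
    split_ifs <;> simp
  · show (1 : ℤ) ≤ V (nb T v) A 1 (Y c (vec T g) v)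
    have h1 : V (nb T v) A 1 (Y c (vec T g) v) =
        V (nb T v) A 1 (fun w => (lamN c (g v w) : ℤ)) :=
      V_congr _ _ _ (fun _ _ => Iff.rfl) fun w hw => Y_vec c g (Finset.mem_filter.1 hw).2
    rw [h1]
    have hle : ∀ h, lamN c h ≤ 1 := lamN_le c
    by_contra hcon
    push Not at hcon
    have h2 : ∀ w ∈ nb T v, 0 ≤ (if w ∈ A then (1 : ℤ) - lamN c (g v w) else lamN c (g v w)) := by
      intro w _
      have := hle (g v w)
      split_ifs <;> omega
    have h3 : V (nb T v) A 1 (fun w => (lamN c (g v w) : ℤ)) = 0 := by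
      have : 0 ≤ V (nb T v) A 1 (fun w => (lamN c (g v w) : ℤ)) := Finset.sum_nonneg h2
      omega
    have h4 := (Finset.sum_eq_zero_iff_of_nonneg h2).1 h3
    have h5 : ∑ w ∈ nb T v, lamN c (g v w) = ∑ w ∈ nb T v, if w ∈ A then 1 else 0 := by
      refine Finset.sum_congr rfl fun w hw => ?_
      have := h4 w hw
      split_ifs with h6
      · rw [if_pos h6] at this; omega
      · rw [if_neg h6] at this; omega
    rw [← Finset.sum_filter, Finset.filter_mem_eq_inter, Finset.inter_eq_right.2 hA,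
      Finset.sum_const, smul_eq_mul, mul_one] at h5
    have h6 := even_net hg hv c
    rw [h5] at h6
    exact Nat.not_even_iff_odd.2 hodd h6

theorem Y_add (c : Fin 3) (z z' : (W × W × (ZMod 2 × ZMod 2) → ℤ) × ℤ) (v w : W) :
    Y c (z + z') v w = Y c z v w + Y c z' v w := by
  unfold Y
  rw [← Finset.sum_add_distrib]
  refine Finset.sum_congr rfl fun h _ => ?_
  simp only [Prod.fst_add, Pi.add_apply]
  ring

theorem Y_neg (c : Fin 3) (z : (W × W × (ZMod 2 × ZMod 2) → ℤ) × ℤ) (v w : W) :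
    Y c (-z) v w = - Y c z v w := by
  unfold Y
  rw [← Finset.sum_neg_distrib]
  refine Finset.sum_congr rfl fun h _ => ?_
  simp only [Prod.fst_neg, Pi.neg_apply]
  ring

theorem Y_nsmul (c : Fin 3) (k : ℕ) (z : (W × W × (ZMod 2 × ZMod 2) → ℤ) × ℤ) (v w : W) :
    Y c (k • z) v w = k * Y c z v w := by
  unfold Y
  rw [Finset.mul_sum]
  refine Finset.sum_congr rfl fun h _ => ?_
  have h1 : (k • z).1 (v, w, h) = k * z.1 (v, w, h) := by simp
  rw [h1]
  ring

theorem V_add (N A : Finset W) (d d' : ℤ) (y y' : W → ℤ) :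
    V N A (d + d') (fun w => y w + y' w) = V N A d y + V N A d' y' := by
  unfold V
  rw [← Finset.sum_add_distrib]
  refine Finset.sum_congr rfl fun h _ => ?_
  split_ifs <;> ring

theorem V_mul (N A : Finset W) (k d : ℤ) (y : W → ℤ) :
    V N A (k * d) (fun w => k * y w) = k * V N A d y := by
  unfold V
  rw [Finset.mul_sum]
  refine Finset.sum_congr rfl fun h _ => ?_
  split_ifs <;> ring

theorem PE_closure {S : Set ((W × W × (ZMod 2 × ZMod 2) → ℤ) × ℤ)}
    (hS : ∀ p ∈ S, ∃ g, IsNet T g ∧ p = vec T g) {z : (W × W × (ZMod 2 × ZMod 2) → ℤ) × ℤ}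
    (hz : z ∈ AddSubgroup.closure S) : PE T z := by
  induction hz using AddSubgroup.closure_induction with
  | mem x hx =>
    obtain ⟨g, hg, rfl⟩ := hS x hx
    exact PE_vec hg
  | zero =>
    refine ⟨by simp, by simp, by simp, fun v _ c => ?_⟩
    have : ∑ w ∈ nb T v, Y c 0 v w = 0 := Finset.sum_eq_zero fun w _ => by simp [Y]
    rw [this]
    exact Even.zero
  | add x y _ _ hx hy =>
    obtain ⟨a1, a2, a3, a4⟩ := hx
    obtain ⟨b1, b2, b3, b4⟩ := hy
    refine ⟨fun v w h hvw => ?_, fun v w hvw => ?_, fun v w h => ?_, fun v hv c => ?_⟩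
    · simp [a1 v w h hvw, b1 v w h hvw]
    · simp only [Prod.fst_add, Pi.add_apply, Prod.snd_add, Finset.sum_add_distrib, a2 v w hvw,
        b2 v w hvw]
    · simp only [Prod.fst_add, Pi.add_apply, a3 v w h, b3 v w h]
    · simp only [Y_add, Finset.sum_add_distrib]
      exact (a4 v hv c).add (b4 v hv c)
  | neg x _ hx =>
    obtain ⟨a1, a2, a3, a4⟩ := hx
    refine ⟨fun v w h hvw => ?_, fun v w hvw => ?_, fun v w h => ?_, fun v hv c => ?_⟩
    · simp [a1 v w h hvw]
    · simp only [Prod.fst_neg, Pi.neg_apply, Prod.snd_neg, Finset.sum_neg_distrib, a2 v w hvw]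
    · simp only [Prod.fst_neg, Pi.neg_apply, a3 v w h]
    · simp only [Y_neg, Finset.sum_neg_distrib]
      exact (a4 v hv c).neg

theorem PI_closure {S : Set ((W × W × (ZMod 2 × ZMod 2) → ℤ) × ℤ)}
    (hS : ∀ p ∈ S, ∃ g, IsNet T g ∧ p = vec T g) {z : (W × W × (ZMod 2 × ZMod 2) → ℤ) × ℤ}
    (hz : z ∈ AddSubmonoid.closure S) : PI T z := by
  induction hz using AddSubmonoid.closure_induction with
  | mem x hx =>
    obtain ⟨g, hg, rfl⟩ := hS x hx
    exact PI_vec hg
  | zero =>
    refine ⟨le_rfl, fun _ => le_rfl, fun v _ c A _ _ => ?_⟩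
    have : V (nb T v) A 0 (Y c 0 v) = 0 := Finset.sum_eq_zero fun w _ => by simp [Y]
    exact le_of_eq this.symm
  | add x y _ _ hx hy =>
    obtain ⟨a1, a2, a3⟩ := hx
    obtain ⟨b1, b2, b3⟩ := hy
    refine ⟨add_nonneg a1 b1, fun t => add_nonneg (a2 t) (b2 t), fun v hv c A hA hodd => ?_⟩
    have h1 : V (nb T v) A (x + y).2 (Y c (x + y) v) =
        V (nb T v) A x.2 (Y c x v) + V (nb T v) A y.2 (Y c y v) := by
      rw [← V_add]
      exact V_congr _ _ _ (fun _ _ => Iff.rfl) fun w _ => Y_add c x y v w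
    rw [h1]
    exact add_le_add (a3 v hv c A hA hodd) (b3 v hv c A hA hodd)

theorem PI_nsmul {z : (W × W × (ZMod 2 × ZMod 2) → ℤ) × ℤ} {k : ℕ} (hk : 0 < k)
    (h : PI T (k • z)) : PI T z := by
  have hk' : (0 : ℤ) < k := by exact_mod_cast hk
  obtain ⟨a1, a2, a3⟩ := h
  have e2 : (k • z).2 = k * z.2 := by simp
  have e1 : ∀ t, (k • z).1 t = k * z.1 t := by intro t; simp
  refine ⟨?_, fun t => ?_, fun v hv c A hA hodd => ?_⟩
  · rw [e2] at a1
    exact nonneg_of_mul_nonneg_right a1 hk'
  · have := a2 t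
    rw [e1] at this
    exact nonneg_of_mul_nonneg_right this hk'
  · have h1 : V (nb T v) A (k • z).2 (Y c (k • z) v) = k * V (nb T v) A z.2 (Y c z v) := by
      rw [← V_mul, e2]
      exact V_congr _ _ _ (fun _ _ => Iff.rfl) fun w _ => Y_nsmul c k z v w
    have h2 := a3 v hv c A hA hodd
    rw [h1, e2] at h2
    exact le_of_mul_le_mul_left h2 hk'

/-- the main step -/
theorem main (hT : T.IsTree) {S : Set ((W × W × (ZMod 2 × ZMod 2) → ℤ) × ℤ)}
    (hS : ∀ g, IsNet T g → vec T g ∈ S) {z : (W × W × (ZMod 2 × ZMod 2) → ℤ) × ℤ}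
    (hE : PE T z) (hI : PI T z) : z ∈ AddSubmonoid.closure S := by
  obtain ⟨a1, a2, a3, a4⟩ := hE
  obtain ⟨b1, b2, b3⟩ := hI
  obtain ⟨d, hd⟩ := Int.eq_ofNat_of_zero_le b1
  have hx : ∀ t, ∃ n : ℕ, z.1 t = n := fun t => Int.eq_ofNat_of_zero_le (b2 t)
  choose X hX using hx
  let x : W → W → (ZMod 2 × ZMod 2) → ℕ := fun v w h => X (v, w, h)
  have hxz : ∀ v w h, z.1 (v, w, h) = x v w h := fun v w h => hX _
  have hsum : ∀ v w, T.Adj v w → ∑ h, x v w h = d := by
    intro v w hvw
    have := a2 v w hvw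
    simp only [hxz] at this
    have h2 : ((∑ h, x v w h : ℕ) : ℤ) = d := by
      push_cast
      rw [this, hd]
    exact_mod_cast h2
  have hxs : ∀ v w h, x v w h = x w v h := by
    intro v w h
    have := a3 v w h
    rw [hxz, hxz] at this
    exact_mod_cast this
  have hYx : ∀ c v w, Y c z v w = yv c (x v w) := by
    intro c v w
    unfold Y yv
    exact Finset.sum_congr rfl fun h _ => by rw [hxz]
  -- local decompositions
  have hloc : ∀ v, ∃ φ : W → Fin d → ZMod 2 × ZMod 2,
      (∀ w ∈ nb T v, ∀ h, cnt (φ w) h = x v w h) ∧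
      ((¬ ∃! w : W, T.Adj v w) → ∀ j, ∑ w ∈ nb T v, φ w j = 0) := by
    intro v
    by_cases hv : ∃! w : W, T.Adj v w
    · have h1 : ∀ w, ∃ φ : Fin d → ZMod 2 × ZMod 2, w ∈ nb T v → ∀ h, cnt φ h = x v w h := by
        intro w
        by_cases hw : w ∈ nb T v
        · obtain ⟨φ, hφ⟩ := exists_cnt d (x v w) (hsum v w (Finset.mem_filter.1 hw).2)
          exact ⟨φ, fun _ => hφ⟩
        · exact ⟨fun _ => 0, fun h => absurd h hw⟩
      choose φ hφ using h1
      exact ⟨φ, hφ, fun h => absurd hv h⟩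
    · have hcard : (nb T v).card ≠ 1 := by
        intro h
        obtain ⟨w, hw⟩ := Finset.card_eq_one.1 h
        apply hv
        refine ⟨w, ?_, ?_⟩
        · have : w ∈ nb T v := by rw [hw]; simp
          exact (Finset.mem_filter.1 this).2
        · intro u hu
          have : u ∈ nb T v := Finset.mem_filter.2 ⟨Finset.mem_univ _, hu⟩
          rw [hw] at this
          exact Finset.mem_singleton.1 this
      by_cases h0 : (nb T v).card = 0
      · have h1 : nb T v = ∅ := Finset.card_eq_zero.1 h0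
        refine ⟨fun _ _ => 0, fun w hw => ?_, fun _ j => by rw [h1]; simp⟩
        rw [h1] at hw
        simp at hw
      · obtain ⟨φ, h1, h2⟩ := claw d ((nb T v).card - 2) (nb T v) (by omega) (x v)
          (fun w hw => hsum v w (Finset.mem_filter.1 hw).2) (by
            intro c
            refine ⟨?_, fun A hA hodd => ?_⟩
            · have := a4 v hv c
              simp only [hYx] at this
              exact this
            · have h3 := b3 v hv c A hA hodd
              rw [hd] at h3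
              refine h3.trans (le_of_eq ?_)
              exact V_congr _ _ _ (fun _ _ => Iff.rfl) fun w _ => hYx c v w)
        exact ⟨φ, h1, fun _ => h2⟩
  choose φ hφ1 hφ2 using hloc
  obtain ⟨σ, hσ⟩ := tree_glue (X := Equiv.Perm (Fin d)) hT
    (fun v w s t => ∀ j, φ v w (s j) = φ w v (t j))
    (fun v w s t _ h j => (h j).symm) (by
      intro v w hvw s
      obtain ⟨τ, hτ⟩ := exists_perm (φ w v) (fun j => φ v w (s j)) (by
        intro h
        rw [cnt_comp, hφ1 v w (Finset.mem_filter.2 ⟨Finset.mem_univ _, hvw⟩) h,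
          hφ1 w v (Finset.mem_filter.2 ⟨Finset.mem_univ _, hvw.symm⟩) h, hxs])
      exact ⟨τ, fun j => (hτ j).symm⟩) 1
  let g : Fin d → W → W → ZMod 2 × ZMod 2 := fun j v w => if T.Adj v w then φ v w (σ v j) else 0
  have hg : ∀ j, IsNet T (g j) := by
    intro j
    refine ⟨fun v w => ?_, fun v hv => ?_⟩
    · simp only [g]
      by_cases hvw : T.Adj v w
      · rw [if_pos hvw, if_pos hvw.symm]
        exact hσ v w hvw j
      · rw [if_neg hvw, if_neg (fun h => hvw h.symm)]
    · have h1 := hφ2 v hv (σ v j)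
      rw [← Finset.sum_filter]
      refine Eq.trans ?_ h1
      refine Finset.sum_congr rfl fun w hw => ?_
      simp only [g, if_pos (Finset.mem_filter.1 hw).2]
  have hz : z = ∑ j, vec T (g j) := by
    refine Prod.ext ?_ ?_
    · rw [Prod.fst_sum]
      funext t
      obtain ⟨v, w, h⟩ := t
      rw [Finset.sum_apply]
      simp only [vec, g]
      by_cases hvw : T.Adj v w
      · simp only [hvw, true_and, if_true]
        rw [hxz, ← hφ1 v w (Finset.mem_filter.2 ⟨Finset.mem_univ _, hvw⟩) h,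
          ← cnt_comp (φ v w) (σ v)]
        unfold cnt
        push_cast
        rfl
      · simp only [hvw, false_and, if_false, Finset.sum_const_zero]
        exact a1 v w h hvw
    · rw [Prod.snd_sum]
      simp [vec, hd]
  rw [hz]
  exact AddSubmonoid.sum_mem _ fun j _ => AddSubmonoid.subset_closure (hS _ (hg j))

end

/-- For every finite tree, the semigroup generated by the homogenized indicator vectors of Z2×Z2 edge labelings summing to zero at each non-leaf vertex is saturated in its group, i.e. the Z2×Z2 group-based model variety is projectively normal. -/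
theorem result :
  ∀ (V : Type) [Fintype V] [DecidableEq V] (T : SimpleGraph V) [DecidableRel T.Adj],
    T.IsTree →
    ∀ S : Set ((V × V × (ZMod 2 × ZMod 2) → ℤ) × ℤ),
      S = {p : (V × V × (ZMod 2 × ZMod 2) → ℤ) × ℤ |
            ∃ g : V → V → ZMod 2 × ZMod 2,
              (∀ v w : V, g v w = g w v) ∧
              (∀ v : V, (¬ ∃! w : V, T.Adj v w) →
                (∑ w : V, (if T.Adj v w then g v w else (0 : ZMod 2 × ZMod 2))) = 0) ∧
              p = Prod.mk (fun x : V × V × (ZMod 2 × ZMod 2) =>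
                      if T.Adj x.1 x.2.1 ∧ g x.1 x.2.1 = x.2.2
                      then (1 : ℤ) else 0) (1 : ℤ)} →
      ∀ z : (V × V × (ZMod 2 × ZMod 2) → ℤ) × ℤ,
        z ∈ AddSubgroup.closure S → ∀ k : ℕ, 0 < k →
          k • z ∈ AddSubmonoid.closure S → z ∈ AddSubmonoid.closure S := by
  intro V _ _ T _ hT S hS z hz k hk hkz
  refine main hT (fun g hg => ?_) (PE_closure (fun p hp => ?_) hz)
    (PI_nsmul hk (PI_closure (fun p hp => ?_) hkz))
  · rw [hS]
    exact ⟨g, hg.1, hg.2, rfl⟩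
  · rw [hS] at hp
    obtain ⟨g, h1, h2, h3⟩ := hp
    exact ⟨g, ⟨h1, h2⟩, h3⟩
  · rw [hS] at hp
    obtain ⟨g, h1, h2, h3⟩ := hp
    exact ⟨g, ⟨h1, h2⟩, h3⟩

end Pool.Agent.S00471
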